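import Pool.Agent.Helper20.QD.St3

/-!
# Project QD, part B (MP_d112a4_gt), module LDY: convergence dynamics
-/

open Filter Topology Matrix Set Metric
open scoped ComplexConjugate ComplexOrder

namespace Pool.Agent.Helper44.QD

open Pool.Agent.Helper35.PM Pool.Agent.Helper20.QD

/-- LDY -/
theorem hLDY (hLFR : StLFR) (hLMX : StLMX) (hLLS : StLLS) : StLDY := by
  intro Γ _ ρ hd ε hε
  obtain ⟨f1, f2, _, _⟩ := hLFR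
  obtain ⟨m1, _, _, _, m5, _⟩ := hLMX
  have hF := (hLLS Γ ρ hd).2.2.1 (ε / 4) (by positivity)
  have hT1 : {γ : Γ | γ⁻¹ ∈ {δ : Γ | ∀ Q ∈ limitSet ρ, ε / 4 ≤ fr (orb ρ δ) Q}}.Finite :=
    hF.preimage inv_injective.injOn
  have hT2 : {γ : Γ | hs (ρ γ : Mat) ≤ 4 / ε}.Finite := hd (4 / ε)
  refine (hT1.union hT2).subset ?_
  rintro γ ⟨Q, hQ, hQR, hbig⟩
  by_contra hcon
  rw [Set.mem_union, not_or] at hcon
  obtain ⟨hn1, hn2⟩ := hcon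
  have hn1' : ¬ ∀ Q ∈ limitSet ρ, ε / 4 ≤ fr (orb ρ γ⁻¹) Q := hn1
  have hn2' : ¬ hs (ρ γ : Mat) ≤ 4 / ε := hn2
  push Not at hn1' hn2'
  obtain ⟨R, hR, hRlt⟩ := hn1'
  -- distance from `Q` to `orb ρ γ⁻¹`
  have hse : 0 < Real.sqrt ε := Real.sqrt_pos.2 hε
  have h4 : Real.sqrt (ε / 4) = Real.sqrt ε / 2 := by
    rw [Real.sqrt_div' ε (by norm_num : (0 : ℝ) ≤ 4)]
    congr 1
    rw [show (4 : ℝ) = 2 ^ 2 by norm_num]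
    exact Real.sqrt_sq (by norm_num)
  have h5 : Real.sqrt ε ≤ Real.sqrt (fr Q R) := Real.sqrt_le_sqrt (hQR R hR)
  have h6 := f2 Q (orb ρ γ⁻¹) R
  have h7 : Real.sqrt (fr (orb ρ γ⁻¹) R) ≤ Real.sqrt ε / 2 := by
    rw [← h4]
    exact Real.sqrt_le_sqrt hRlt.le
  have h8 : Real.sqrt (ε / 4) ≤ Real.sqrt (fr Q (orb ρ γ⁻¹)) := by
    rw [h4]
    linarith
  have h9 : ε / 4 ≤ fr (orb ρ γ⁻¹) Q := by
    rw [(f1 (orb ρ γ⁻¹) Q).2.1]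
    exact (Real.sqrt_le_sqrt_iff (f1 Q (orb ρ γ⁻¹)).1).1 h8
  -- the estimate
  obtain ⟨g1, g2, g3⟩ := m5 (ρ γ) Q hQ
  have hh2 := m1 (ρ γ)
  obtain ⟨h, hh⟩ : ∃ h, h = hs (ρ γ : Mat) := ⟨_, rfl⟩
  obtain ⟨t, ht⟩ : ∃ t, t = ((ρ γ : Mat) * Q * (ρ γ : Mat)ᴴ).trace.re := ⟨_, rfl⟩
  rw [← hh, ← ht] at g2 g3
  rw [← ht] at g1
  rw [← hh] at hh2 hn2'
  have horb : orb ρ γ⁻¹ = density ((((ρ γ)⁻¹ : SL) : Mat) * (((ρ γ)⁻¹ : SL) : Mat)ᴴ) := by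
    unfold orb
    rw [map_inv]
  rw [← horb] at g3
  have hbig' : ε ≤ 2 / (h * t) := hbig.trans g2
  have hh0 : 0 < h := by linarith
  have ht0 : h * ε / 8 ≤ t := by nlinarith
  have h10 : ε * (h * t) ≤ 2 := by
    rwa [le_div_iff₀ (mul_pos hh0 g1)] at hbig'
  have h11 : 4 < h * ε := by
    rwa [div_lt_iff₀ hε] at hn2'
  nlinarith [mul_pos hh0 hε, mul_le_mul_of_nonneg_left ht0 (mul_pos hh0 hε).le]

end Pool.Agent.Helper44.QD
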